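import Pool.Agent.MP_9fb7a1_lc.Mg.Main

namespace Pool.Agent.Results.MP_9fb7a1_lc.Coincide

open Pool.Agent.MP_9fb7a1_lc

/-- A c.e. degree is attractive if and only if it is almost everywhere dominating. -/
theorem result : ∀ A : ℕ → Bool, HasCEDegree A → (Attractive A ↔ AEDominating A) :=
  fun _ hA => ⟨aeDominating_of_attractive hA, attractive_of_aeDominating⟩

end Pool.Agent.Results.MP_9fb7a1_lc.Coincide
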